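import Mathlib

/-!
# An alternating character sum over doubled partitions

We disprove the identity `A_N(λ) = B_N(λ)`: it fails for `n = 8`, `λ = (5,3)` and `N = 3`.
-/

namespace Pool.Agent.Results.MP_3827cc_co.AlternatingSum

open MvPolynomial

/-! ### Definitions -/

/-- The parts of a partition, in weakly decreasing order. -/
noncomputable def lst {m : ℕ} (μ : Nat.Partition m) : List ℕ := μ.parts.sort (· ≥ ·)

/-- `∏_{i<j} (x_i - x_j)` in `k` variables. -/
noncomputable def vand (k : ℕ) : MvPolynomial (Fin k) ℤ :=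
  ∏ i : Fin k, ∏ j ∈ Finset.Ioi i, (X i - X j)

/-- The product of the power sums `p_r(x_1,…,x_k)` over the `r` in `ν`. -/
noncomputable def psum (k : ℕ) (ν : Multiset ℕ) : MvPolynomial (Fin k) ℤ :=
  (ν.map fun r => ∑ i : Fin k, X i ^ r).prod

/-- Frobenius' formula for a partition with list of parts `l = (l_1 ≥ … ≥ l_k)`: the coefficient
of `∏_i x_i^{l_i + k - i}` in `∏_{i<j} (x_i - x_j) ∏_{r ∈ ν} p_r(x_1, …, x_k)`. -/
noncomputable def frob (l : List ℕ) (ν : Multiset ℕ) : ℤ :=
  coeff (Finsupp.equivFunOnFinite.symm fun i : Fin l.length => l.get i + (l.length - 1 - i))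
    (vand l.length * psum l.length ν)

/-- The character value `χ^μ_ν`, through Frobenius' character formula. -/
noncomputable def chi {m : ℕ} (μ : Nat.Partition m) (ν : Multiset ℕ) : ℤ := frob (lst μ) ν

/-- The doubled partition `λ̃_S`, where `l` is the list of parts of `λ`: the part `l_i` is replaced
with the part `2 l_i` for `i ∈ S` and with the two parts `l_i, l_i` for `i ∉ S`. -/
def dbl (l : List ℕ) (S : Finset (Fin l.length)) : Multiset ℕ :=
  ∑ i : Fin l.length, if i ∈ S then {2 * l.get i} else {l.get i, l.get i}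

/-- `R_N(m)`: at most `N` parts, all even. -/
def setR (N m : ℕ) : Finset (Nat.Partition m) :=
  {μ | Multiset.card μ.parts ≤ N ∧ ∀ x ∈ μ.parts, Even x}

/-- `R^c_N(m)`: at most `N` parts, and all parts `μ'_j = #{i : μ_i ≥ j}` of the conjugate
partition are even. -/
noncomputable def setRc (N m : ℕ) : Finset (Nat.Partition m) :=
  open scoped Classical in
  {μ | Multiset.card μ.parts ≤ N ∧ ∀ j : ℕ, 1 ≤ j → Even (Multiset.countP (j ≤ ·) μ.parts)}

/-- The sum `A_N(λ)`. -/
noncomputable def A {n : ℕ} (N : ℕ) (lam : Nat.Partition n) : ℤ :=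
  ∑ S : Finset (Fin (lst lam).length), (-1) ^ Multiset.card (dbl (lst lam) S) *
    ∑ μ ∈ setR (2 * N + 1) (2 * n), chi μ (dbl (lst lam) S)

/-- The sum `B_N(λ)`. -/
noncomputable def B {n : ℕ} (N : ℕ) (lam : Nat.Partition n) : ℤ :=
  ∑ S : Finset (Fin (lst lam).length), ∑ μ ∈ setRc (2 * N) (2 * n), chi μ (dbl (lst lam) S)

/-! ### Computation of the coefficients -/

/-- The coefficient of `x^a` in `det (x_i ^ E_j)`. -/
def coL : List ℕ → List ℕ → ℤ
  | [], _ => 1
  | x :: a, E => ((List.range E.length).map fun j =>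
      if x = E.getD j 0 then (-1) ^ j * coL a (E.eraseIdx j) else 0).sum

/-- exponent vector of a list -/
noncomputable def ex (k : ℕ) (a : List ℕ) : Fin k →₀ ℕ :=
  Finsupp.equivFunOnFinite.symm fun i : Fin k => a.getD i 0

theorem ex_apply (k : ℕ) (a : List ℕ) (i : Fin k) : ex k a i = a.getD i 0 := rfl

theorem ex_cons (k : ℕ) (x : ℕ) (a : List ℕ) : ex (k + 1) (x :: a) = (ex k a).cons x := by
  ext i
  refine Fin.cases ?_ (fun i => ?_) i
  · simp [ex]
  · simp [ex]

theorem coeff_first (k e x : ℕ) (c : ℤ) (m : Fin k →₀ ℕ) (g : MvPolynomial (Fin k) ℤ) :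
    coeff (m.cons x) (C c * X 0 ^ e * rename Fin.succ g) = if x = e then c * coeff m g else 0 := by
  have h : finSuccEquiv ℤ k (C c * X 0 ^ e * rename Fin.succ g) =
      Polynomial.C (C c * g) * Polynomial.X ^ e := by
    have h1 : finSuccEquiv ℤ k (rename Fin.succ g) = Polynomial.C g := by
      induction g using MvPolynomial.induction_on with
      | C a =>
        rw [rename_C]
        simp
      | add p q hp hq => rw [map_add, map_add, map_add, hp, hq]
      | mul_X p i hp => rw [map_mul, map_mul, rename_X, hp, finSuccEquiv_X_succ, map_mul]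
    have h2 : finSuccEquiv ℤ k (C c) = Polynomial.C (C c) := by
      simp
    rw [map_mul, map_mul, map_pow, finSuccEquiv_X_zero, h1, h2, map_mul]
    ring
  rw [← finSuccEquiv_coeff_coeff, h, Polynomial.coeff_C_mul_X_pow]
  split_ifs
  · rw [coeff_C_mul]
  · simp

theorem eraseIdx_getD (E : List ℕ) (j i : ℕ) :
    (E.eraseIdx j).getD i 0 = if i < j then E.getD i 0 else E.getD (i + 1) 0 := by
  simp only [List.getD_eq_getElem?_getD, List.getElem?_eraseIdx]
  split_ifs <;> rfl

/-- the alternant -/
noncomputable def alt (k : ℕ) (E : List ℕ) : MvPolynomial (Fin k) ℤ :=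
  Matrix.det (Matrix.of fun i j : Fin k => (X i : MvPolynomial (Fin k) ℤ) ^ (E.getD j 0))

theorem alt_succ (k : ℕ) (E : List ℕ) : alt (k + 1) E =
    ∑ j : Fin (k + 1), C ((-1) ^ (j : ℕ)) * X 0 ^ (E.getD j 0) *
      rename Fin.succ (alt k (E.eraseIdx j)) := by
  unfold alt
  rw [Matrix.det_succ_row_zero]
  apply Finset.sum_congr rfl
  intro j _
  congr 1
  · simp
  · rw [AlgHom.map_det]
    congr 1
    ext i' j' : 2
    simp only [Matrix.submatrix_apply, Matrix.of_apply, AlgHom.mapMatrix_apply, Matrix.map_apply,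
      map_pow, rename_X, eraseIdx_getD]
    congr 1
    rw [Fin.succAbove]
    split_ifs with h1 h2 h2
    · rfl
    · exact absurd h1 (by rw [Fin.lt_def]; simpa using h2)
    · exact absurd h2 (by rw [Fin.lt_def] at h1; simpa using h1)
    · rfl

theorem list_sum_range (n : ℕ) (f : ℕ → ℤ) :
    ((List.range n).map f).sum = ∑ j ∈ Finset.range n, f j := by
  rw [Finset.sum_eq_multiset_sum, Finset.range_val, ← Multiset.coe_range, Multiset.map_coe,
    Multiset.sum_coe]

theorem alt_coeff (k : ℕ) (a E : List ℕ) (ha : a.length = k) (hE : E.length = k) :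
    coeff (ex k a) (alt k E) = coL a E := by
  induction k generalizing a E with
  | zero =>
    rw [List.length_eq_zero_iff] at ha
    subst ha
    have h1 : alt 0 E = 1 := by simp [alt]
    have h2 : ex 0 [] = 0 := by ext i; exact i.elim0
    rw [h1, h2, coL]
    simp
  | succ k ih =>
    match a, ha with
    | x :: a, ha =>
      rw [alt_succ, coeff_sum, ex_cons, coL, hE, list_sum_range, Finset.sum_range]
      apply Finset.sum_congr rfl
      intro j _
      rw [coeff_first, ih]
      · simpa using ha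
      · rw [List.length_eraseIdx, if_pos (by omega), hE]
        rfl

/-- The list `k-1, …, 1, 0`. -/
def revRange (k : ℕ) : List ℕ := (List.range k).map fun i => k - 1 - i

theorem revRange_getD (k i : ℕ) (hi : i < k) : (revRange k).getD i 0 = k - 1 - i := by
  unfold revRange
  rw [List.getD_eq_getElem _ _ (by simpa using hi)]
  simp

theorem vand_eq (k : ℕ) : vand k = alt k (revRange k) := by
  have h := Matrix.det_projVandermonde (fun _ : Fin k => (1 : MvPolynomial (Fin k) ℤ)) X
  simp only [one_mul] at h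
  unfold vand alt
  rw [← h]
  congr 1
  ext i j : 2
  rw [Matrix.of_apply, revRange_getD k j j.2,
    show k - 1 - (j : ℕ) = (Fin.rev j : ℕ) by rw [Fin.val_rev]; omega]
  simp [Matrix.projVandermonde, Matrix.rectVandermonde]

/-- The coefficient of `x^a` in `vand * psum ν`. -/
def cc : List ℕ → List ℕ → ℤ
  | [], a => coL a (revRange a.length)
  | r :: ν, a => ((List.range a.length).map fun i =>
      if r ≤ a.getD i 0 then cc ν (a.set i (a.getD i 0 - r)) else 0).sum

theorem cc_spec (ν : List ℕ) (k : ℕ) (a : List ℕ) (ha : a.length = k) :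
    coeff (ex k a) (vand k * psum k ν) = cc ν a := by
  induction ν generalizing a with
  | nil =>
    rw [cc, vand_eq, ← alt_coeff k a _ ha (by simp [revRange, ha]), ha]
    simp [psum]
  | cons r ν ih =>
    have h1 : psum k (↑(r :: ν) : Multiset ℕ) = psum k (ν : Multiset ℕ) * ∑ i : Fin k, X i ^ r := by
      unfold psum
      rw [← Multiset.cons_coe, Multiset.map_cons, Multiset.prod_cons, mul_comm]
    rw [h1, ← mul_assoc, Finset.mul_sum, coeff_sum, cc, ha, list_sum_range, Finset.sum_range]
    apply Finset.sum_congr rfl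
    intro i _
    rw [X_pow_eq_monomial, coeff_mul_monomial']
    have hle : Finsupp.single i r ≤ ex k a ↔ r ≤ a.getD i 0 := by
      rw [Finsupp.single_le_iff, ex_apply]
    by_cases h : r ≤ a.getD i 0
    · rw [if_pos (hle.2 h), if_pos h, mul_one, ← ih _ (by simpa using ha)]
      congr 1
      ext j
      rw [Finsupp.tsub_apply, ex_apply, ex_apply, Finsupp.single_apply]
      simp only [List.getD_eq_getElem?_getD, List.getElem?_set]
      by_cases hij : i = j
      · subst hij
        simp [ha]
      · rw [if_neg hij, if_neg (fun h => hij (Fin.ext h))]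
        simp
    · rw [if_neg (fun h' => h (hle.1 h')), if_neg h]

/-- The list of the `l_i + k - i`. -/
def beta (l : List ℕ) : List ℕ := (List.range l.length).map fun i => l.getD i 0 + (l.length - 1 - i)

theorem frob_eq (l ν : List ℕ) : frob l ν = cc ν (beta l) := by
  rw [← cc_spec ν l.length (beta l) (by simp [beta])]
  unfold frob
  congr 1
  ext i
  rw [ex_apply]
  simp [beta]

/-! ### Enumeration of partitions -/

/-- All decreasing lists of positive integers `≤ m` of length at most `f` with sum `n`. -/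
def enumF : ℕ → ℕ → ℕ → List (List ℕ)
  | 0, n, _ => if n = 0 then [[]] else []
  | f + 1, n, m => if n = 0 then [[]] else
      (List.range m).flatMap fun i =>
        if i + 1 ≤ n then (enumF f (n - (i + 1)) (i + 1)).map ((i + 1) :: ·) else []

theorem mem_enumF (l : List ℕ) : ∀ (f n m : ℕ), l.Pairwise (· ≥ ·) → (∀ x ∈ l, 1 ≤ x ∧ x ≤ m) →
    l.sum = n → l.length ≤ f → l ∈ enumF f n m := by
  induction l with
  | nil =>
    intro f n m _ _ h3 _
    simp at h3
    subst h3
    cases f <;> simp [enumF]
  | cons a t ih =>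
    intro f n m h1 h2 h3 h4
    obtain ⟨h5, h6⟩ := List.pairwise_cons.1 h1
    obtain ⟨h7, h8⟩ := h2 a (by simp)
    simp at h3 h4
    match f, h4 with
    | f + 1, h4 =>
      rw [enumF, if_neg (by omega), List.mem_flatMap]
      refine ⟨a - 1, by rw [List.mem_range]; omega, ?_⟩
      rw [if_pos (by omega), show a - 1 + 1 = a by omega, List.mem_map]
      refine ⟨t, ih f (n - a) a h6 (fun x hx => ⟨(h2 x (by simp [hx])).1, h5 x hx⟩) (by omega)
        (by omega), rfl⟩

theorem sum_filter (m K : ℕ) (T : Finset (Nat.Partition m)) (F : List ℕ → ℤ)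
    (LL : List (List ℕ)) (hnd : LL.Nodup)
    (h1 : ∀ l ∈ LL, l.Pairwise (· ≥ ·) ∧ (∀ x ∈ l, 0 < x) ∧ l.sum = m)
    (h2 : ∀ μ : Nat.Partition m, μ ∈ T → Multiset.card μ.parts ≤ K)
    (h3 : ∀ l ∈ enumF K m m, ∀ μ : Nat.Partition m, μ.parts = ↑l → (μ ∈ T ↔ l ∈ LL)) 
    (h4 : ∀ l ∈ LL, l ∈ enumF K m m) :
    ∑ μ ∈ T, F (lst μ) = (LL.map F).sum := by
  have hs : ∀ μ : Nat.Partition m, (↑(lst μ) : Multiset ℕ) = μ.parts := fun μ =>
    Multiset.sort_eq _ _
  have hmem : ∀ μ : Nat.Partition m, Multiset.card μ.parts ≤ K → lst μ ∈ enumF K m m := by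
    intro μ hμ
    apply mem_enumF
    · exact Multiset.pairwise_sort _ _
    · intro x hx
      have hx' : x ∈ μ.parts := by rw [← hs μ]; exact hx
      refine ⟨μ.parts_pos hx', ?_⟩
      rw [← μ.parts_sum]
      exact Multiset.le_sum_of_mem hx'
    · rw [← Multiset.sum_coe, hs, μ.parts_sum]
    · rw [← Multiset.coe_card, hs]
      exact hμ
  have key : ∑ μ ∈ T, F (lst μ) = ∑ l ∈ LL.toFinset, F l := by
    apply Finset.sum_nbij (fun μ => lst μ)
    · intro μ hμ
      rw [List.mem_toFinset]
      exact (h3 _ (hmem μ (h2 μ hμ)) μ (hs μ).symm).1 hμ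
    · intro μ _ μ' _ h
      ext1
      rw [← hs μ, ← hs μ']
      simp only at h
      rw [h]
    · intro l hl
      simp only [List.coe_toFinset, Set.mem_ofPred_eq] at hl
      obtain ⟨ha, hb, hc⟩ := h1 l hl
      let μ : Nat.Partition m := ⟨↑l, fun {x} hx => hb x hx, by rw [Multiset.sum_coe, hc]⟩
      refine ⟨μ, (h3 l (h4 l hl) μ rfl).2 hl, ?_⟩
      have : (↑(lst μ) : Multiset ℕ) = ↑l := hs μ
      rw [Multiset.coe_eq_coe] at this
      exact this.eq_of_pairwise' (Multiset.pairwise_sort _ _) ha
    · intro μ _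
      rfl
  rw [key, List.sum_toFinset _ hnd]

/-! ### The two families of partitions -/

/-- The partitions of `16` with at most `7` parts, all even. -/
def listR : List (List ℕ) := (enumF 7 16 16).filter fun l => l.all fun x => x % 2 = 0

/-- The partitions of `16` with at most `6` parts and even conjugate parts. -/
def listRc : List (List ℕ) := (enumF 6 16 16).filter fun l =>
  (List.range 17).all fun j => j = 0 ∨ (l.countP (j ≤ ·)) % 2 = 0

theorem sum_R (F : List ℕ → ℤ) : ∑ μ ∈ setR 7 16, F (lst μ) = (listR.map F).sum := by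
  apply sum_filter 16 7 (setR 7 16) F listR
  · decide +kernel
  · decide +kernel
  · intro μ hμ
    exact (Finset.mem_filter.1 hμ).2.1
  · intro l hl μ hμ
    unfold listR setR
    rw [Finset.mem_filter, List.mem_filter, hμ]
    have hlen : ∀ l ∈ enumF 7 16 16, l.length ≤ 7 := by decide +kernel
    simp only [Finset.mem_univ, true_and, Multiset.coe_card, hlen l hl, Multiset.mem_coe,
      List.all_eq_true, decide_eq_true_eq, hl, Nat.even_iff]
  · intro l hl
    exact (List.mem_filter.1 hl).1

theorem sum_Rc (F : List ℕ → ℤ) : ∑ μ ∈ setRc 6 16, F (lst μ) = (listRc.map F).sum := by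
  classical
  apply sum_filter 16 6 (setRc 6 16) F listRc
  · decide +kernel
  · decide +kernel
  · intro μ hμ
    exact (Finset.mem_filter.1 hμ).2.1
  · intro l hl μ hμ
    unfold listRc setRc
    rw [Finset.mem_filter, List.mem_filter, hμ]
    have hlen : ∀ l ∈ enumF 6 16 16, l.length ≤ 6 := by decide +kernel
    have hmax : ∀ l ∈ enumF 6 16 16, ∀ x ∈ l, x ≤ 16 := by decide +kernel
    simp only [Finset.mem_univ, true_and, Multiset.coe_card, hlen l hl,
      List.all_eq_true, decide_eq_true_eq, hl, Nat.even_iff, Multiset.coe_countP, List.mem_range]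
    constructor
    · intro h j hj
      rcases Nat.eq_zero_or_pos j with h0 | h0
      · left; exact h0
      · right; exact h j h0
    · intro h j hj
      by_cases h16 : j < 17
      · rcases h j h16 with h0 | h0
        · omega
        · exact h0
      · have : l.countP (fun x => decide (j ≤ x)) = 0 := by
          rw [List.countP_eq_zero]
          intro x hx
          have := hmax l hl x hx
          simp only [decide_eq_true_eq]
          omega
        rw [this]
  · intro l hl
    exact (List.mem_filter.1 hl).1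

/-- The partition `(5,3)` of `8`. -/
def lam : Nat.Partition 8 := ⟨{5, 3}, by decide, by decide⟩

theorem lst_lam : lst lam = [5, 3] := by
  have h1 : (↑(lst lam) : Multiset ℕ) = ↑[5, 3] := Multiset.sort_eq _ _
  rw [Multiset.coe_eq_coe] at h1
  exact h1.eq_of_pairwise' (Multiset.pairwise_sort _ _) (by decide)

theorem subsets (f : Multiset ℕ → ℤ) : ∑ S : Finset (Fin (lst lam).length), f (dbl (lst lam) S) =
    f ↑[5, 5, 3, 3] + f ↑[10, 3, 3] + f ↑[6, 5, 5] + f ↑[10, 6] := by
  rw [lst_lam]
  have h : (Finset.univ : Finset (Finset (Fin [5, 3].length))) =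
      {∅, {0}, {1}, {0, 1}} := by decide
  have h1 : dbl [5, 3] ∅ = ↑[5, 5, 3, 3] := by decide
  have h2 : dbl [5, 3] {0} = ↑[10, 3, 3] := by decide
  have h3 : dbl [5, 3] {1} = ↑[6, 5, 5] := by decide
  have h4 : dbl [5, 3] {0, 1} = ↑[10, 6] := by decide
  rw [h, Finset.sum_insert (by decide), Finset.sum_insert (by decide),
    Finset.sum_insert (by decide), Finset.sum_singleton, h1, h2, h3, h4]
  ring

theorem valR (ν : List ℕ) : ∑ μ ∈ setR 7 16, chi μ ↑ν = (listR.map fun l => cc ν (beta l)).sum := by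
  unfold chi
  rw [sum_R (fun l => frob l ↑ν)]
  congr 1
  apply List.map_congr_left
  intro l _
  exact frob_eq l ν

theorem valRc (ν : List ℕ) :
    ∑ μ ∈ setRc 6 16, chi μ ↑ν = (listRc.map fun l => cc ν (beta l)).sum := by
  unfold chi
  rw [sum_Rc (fun l => frob l ↑ν)]
  congr 1
  apply List.map_congr_left
  intro l _
  exact frob_eq l ν

theorem A_val : A 3 lam = 4 := by
  have h := subsets (fun ν => (-1) ^ Multiset.card ν * ∑ μ ∈ setR 7 16, chi μ ν)
  unfold A
  simp only [valR] at h
  have e : (-1) ^ Multiset.card (↑[5, 5, 3, 3] : Multiset ℕ) *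
      (listR.map fun l => cc [5, 5, 3, 3] (beta l)).sum +
      (-1) ^ Multiset.card (↑[10, 3, 3] : Multiset ℕ) *
      (listR.map fun l => cc [10, 3, 3] (beta l)).sum +
      (-1) ^ Multiset.card (↑[6, 5, 5] : Multiset ℕ) *
      (listR.map fun l => cc [6, 5, 5] (beta l)).sum +
      (-1) ^ Multiset.card (↑[10, 6] : Multiset ℕ) *
      (listR.map fun l => cc [10, 6] (beta l)).sum = 4 := by
    decide +kernel
  exact h.trans e

theorem B_val : B 3 lam = 8 := by
  have h := subsets (fun ν => ∑ μ ∈ setRc 6 16, chi μ ν)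
  unfold B
  simp only [valRc] at h
  have e : (listRc.map fun l => cc [5, 5, 3, 3] (beta l)).sum +
      (listRc.map fun l => cc [10, 3, 3] (beta l)).sum +
      (listRc.map fun l => cc [6, 5, 5] (beta l)).sum +
      (listRc.map fun l => cc [10, 6] (beta l)).sum = 8 := by
    decide +kernel
  exact h.trans e

/-- **Theorem.** For `λ = (5,3)` and `N = 3` one has `A_3(λ) = 4` and `B_3(λ) = 8`; in particular
`A_N(λ) = B_N(λ)` does not hold for all `n`, `λ` and `N`. -/
theorem result : (A 3 lam = 4 ∧ B 3 lam = 8) ∧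
    ¬ ∀ n : ℕ, 1 ≤ n → ∀ μ : Nat.Partition n, ∀ N : ℕ, 1 ≤ N → A N μ = B N μ := by
  refine ⟨⟨A_val, B_val⟩, fun h => ?_⟩
  have := h 8 (by norm_num) lam 3 (by norm_num)
  rw [A_val, B_val] at this
  norm_num at this

end Pool.Agent.Results.MP_3827cc_co.AlternatingSum
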